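import Pool.Agent.BICS.Base

/-!
# Visible conflicts, O-paths, simultaneous certificates (section 2 of the page CW_h53)

`M` a matroid, `C` independent, `B ⊆ C` (the global conflicts), `c ∈ C \ B`. The matroid
`N₀ = M ／ (C \ B)` is the exact matroid (plus a constant), `L = M ／ (C \ insert c B)` an
elementary lift of it.
-/

open Set BIC BICS
open scoped Matroid

namespace CW

variable {α : Type*}

lemma rk_emp (N : Matroid α) [N.Finite] : rk N (∅ : Set α) = 0 :=
  Nat.le_zero.1 ((rk_le_ncard N Set.finite_empty).trans_eq (by simp))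

/-! ### elementary lifts -/

section lift

variable {L N : Matroid α} {T X Y F : Set α}

/-- `L` is an elementary lift of `N` on the subsets of `T`. -/
structure Elem (L N : Matroid α) (T : Set α) : Prop where
  quo : Quo L N T
  le : ∀ X ⊆ T, rk L X ≤ rk N X + 1

/-- the lift is not visible on `X` -/
def Inv (L N : Matroid α) (X : Set α) : Prop := rk L X = rk N X

lemma Elem.ge [L.Finite] [N.Finite] (h : Elem L N T) (hX : X ⊆ T) : rk N X ≤ rk L X := by
  have := h.quo ∅ X (empty_subset _) hX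
  rw [rk_emp, rk_emp] at this
  omega

lemma Elem.vis [L.Finite] [N.Finite] (h : Elem L N T) (hX : X ⊆ T) (hn : ¬ Inv L N X) :
    rk L X = rk N X + 1 := by
  have h1 := h.ge hX
  have h2 := h.le X hX
  have h3 : rk L X ≠ rk N X := hn
  omega

lemma Elem.inv_mono [L.Finite] [N.Finite] (h : Elem L N T) (hXY : X ⊆ Y) (hY : Y ⊆ T)
    (hi : Inv L N Y) : Inv L N X := by
  have h1 := h.quo X Y hXY hY
  have h2 := h.ge (hXY.trans hY)
  have h3 : rk L Y = rk N Y := hi
  show rk L X = rk N X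
  omega

/-- GLUE -/
lemma Elem.glue [L.Finite] [N.Finite] (h : Elem L N T) (hX : X ⊆ T) (hY : Y ⊆ T)
    (hXi : Inv L N X) (hYi : Inv L N Y)
    (hmod : rk N X + rk N Y ≤ rk N (X ∪ Y) + rk N (X ∩ Y)) : Inv L N (X ∪ Y) := by
  have h1 := rk_submod L X Y
  have h2 := h.ge (inter_subset_left.trans hX : X ∩ Y ⊆ T)
  have h3 := h.ge (union_subset hX hY)
  have h4 : rk L X = rk N X := hXi
  have h5 : rk L Y = rk N Y := hYi
  show rk L (X ∪ Y) = rk N (X ∪ Y)
  omega

/-- pendant sets -/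
lemma Elem.inv_add [L.Finite] [N.Finite] (h : Elem L N T) (hX : X ∪ F ⊆ T) (hF : F.Finite)
    (hi : Inv L N X) (hc : rk N X + F.ncard ≤ rk N (X ∪ F)) : Inv L N (X ∪ F) := by
  have h1 := rk_union_le L (X := X) hF
  have h2 := h.ge hX
  have h3 : rk L X = rk N X := hi
  show rk L (X ∪ F) = rk N (X ∪ F)
  omega

/-- (a') an unbalanced path `Q` over `O` is unbalanced over `O' ⊆ O`. -/
lemma Elem.persist [L.Finite] [N.Finite] (h : Elem L N T) {O O' Q : Set α} (hO : O ⊆ T)
    (hQ : Q ⊆ T) (hO' : O' ⊆ O) (hd : Disjoint Q O) (hi : Inv L N O)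
    (hmod : rk N (O' ∪ Q) + rk N O ≤ rk N (O ∪ Q) + rk N O') (hv : ¬ Inv L N (O ∪ Q)) :
    ¬ Inv L N (O' ∪ Q) := by
  intro hi'
  apply hv
  have h1 : (O' ∪ Q) ∪ O = O ∪ Q := by
    ext e
    simp only [mem_union]
    constructor
    · rintro ((h | h) | h)
      · exact Or.inl (hO' h)
      · exact Or.inr h
      · exact Or.inl h
    · rintro (h | h)
      · exact Or.inr h
      · exact Or.inl (Or.inr h)
  have h2 : (O' ∪ Q) ∩ O = O' := by
    ext e
    simp only [mem_inter_iff, mem_union]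
    constructor
    · rintro ⟨h | h, h'⟩
      · exact h
      · exact absurd h' (Set.disjoint_left.1 hd h)
    · exact fun h => ⟨Or.inl h, hO' h⟩
  have := h.glue (union_subset (hO'.trans hO) hQ) hO hi' hi (by rw [h1, h2]; exact hmod)
  rwa [h1] at this

/-- (a) tripod: if two of the three pairs of arms are balanced then the whole tripod is. -/
lemma Elem.tripod [L.Finite] [N.Finite] (h : Elem L N T) {O a₁ a₂ a₃ : Set α}
    (hT : O ∪ a₁ ∪ a₂ ∪ a₃ ⊆ T) (hd : Disjoint a₂ a₃)
    (hmod : rk N (O ∪ a₁ ∪ a₂) + rk N (O ∪ a₁ ∪ a₃) ≤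
      rk N (O ∪ a₁ ∪ a₂ ∪ a₃) + rk N (O ∪ a₁))
    (h2 : Inv L N (O ∪ a₁ ∪ a₂)) (h3 : Inv L N (O ∪ a₁ ∪ a₃)) :
    Inv L N (O ∪ a₁ ∪ a₂ ∪ a₃) := by
  have e1 : (O ∪ a₁ ∪ a₂) ∪ (O ∪ a₁ ∪ a₃) = O ∪ a₁ ∪ a₂ ∪ a₃ := by
    ext e; simp only [mem_union]; tauto
  have e2 : (O ∪ a₁ ∪ a₂) ∩ (O ∪ a₁ ∪ a₃) = O ∪ a₁ := by
    ext e
    have h4 : e ∈ a₂ → e ∉ a₃ := fun h' => Set.disjoint_left.1 hd h'
    simp only [mem_inter_iff, mem_union]
    tauto
  have := h.glue (X := O ∪ a₁ ∪ a₂) (Y := O ∪ a₁ ∪ a₃) (subset_union_left.trans hT)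
    (fun e he => hT (e1.subset (Or.inr he))) h2 h3 (by rw [e1, e2]; exact hmod)
  rwa [e1] at this

end lift

/-! ### the conflicts of a matroid -/

section conf

variable {M : Matroid α} {C T X Y : Set α}

/-- `c` is visible on `X` (all conflicts outside `Z` and different from `c` are contracted) -/
def Vis (M : Matroid α) (C Z : Set α) (c : α) (X : Set α) : Prop :=
  c ∈ M.closure (X ∪ (C \ insert c Z))

lemma rk_conf [M.Finite] (hC : M.Indep C) {Z : Set α} (hX : X ⊆ M.E \ C) :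
    rk (M ／ (C \ Z)) X + (C \ Z).ncard = rk M (X ∪ (C \ Z)) := by
  rw [← rk_indep (hC.subset sdiff_subset), rk_contract_set (sdiff_subset.trans hC.subset_ground)]
  exact fun e he => ⟨(hX he).1, fun h => (hX he).2 h.1⟩

lemma diff_insert_card [M.Finite] (hC : M.Indep C) {Z : Set α} {c : α} (hc : c ∈ C)
    (hcZ : c ∉ Z) : (C \ Z).ncard = (C \ insert c Z).ncard + 1 := by
  have h1 : C \ Z = insert c (C \ insert c Z) := by
    ext e
    simp only [mem_sdiff, mem_insert_iff]
    by_cases h : e = c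
    · subst h; simp [hc, hcZ]
    · simp [h]
  rw [h1, Set.ncard_insert_of_notMem (fun h => h.2 (Or.inl rfl))
    ((M.ground_finite.subset hC.subset_ground).subset sdiff_subset)]

lemma union_diff_insert {Z : Set α} {c : α} (hc : c ∈ C) (hcZ : c ∉ Z) (X : Set α) :
    X ∪ (C \ Z) = insert c (X ∪ (C \ insert c Z)) := by
  ext e
  simp only [mem_union, mem_sdiff, mem_insert_iff]
  by_cases h : e = c
  · subst h; simp [hc, hcZ]
  · simp [h]

lemma rk_vis [M.Finite] (hC : M.Indep C) {Z : Set α} {c : α} (hc : c ∈ C) (hcZ : c ∉ Z)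
    (hX : X ⊆ M.E \ C) (hv : Vis M C Z c X) :
    rk (M ／ (C \ insert c Z)) X = rk (M ／ (C \ Z)) X + 1 := by
  have h1 := rk_conf hC (Z := Z) hX
  have h2 := rk_conf hC (Z := insert c Z) hX
  have h3 := diff_insert_card hC hc hcZ
  have h4 : rk M (X ∪ (C \ Z)) = rk M (X ∪ (C \ insert c Z)) := by
    rw [union_diff_insert hc hcZ, ← rk_closure (insert c _), ← rk_closure (X ∪ (C \ insert c Z)),
      Matroid.closure_insert_eq_of_mem_closure hv]
  omega

lemma rk_not_vis [M.Finite] (hC : M.Indep C) {Z : Set α} {c : α} (hc : c ∈ C) (hcZ : c ∉ Z)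
    (hX : X ⊆ M.E \ C) (hv : ¬ Vis M C Z c X) :
    rk (M ／ (C \ insert c Z)) X = rk (M ／ (C \ Z)) X := by
  have h1 := rk_conf hC (Z := Z) hX
  have h2 := rk_conf hC (Z := insert c Z) hX
  have h3 := diff_insert_card hC hc hcZ
  have h4 : rk M (X ∪ (C \ Z)) = rk M (X ∪ (C \ insert c Z)) + 1 := by
    rw [union_diff_insert hc hcZ]
    have := M.eRk_insert_eq_add_one (e := c) (X := X ∪ (C \ insert c Z))
      ⟨hC.subset_ground hc, hv⟩
    have h5 := cast_rk M (insert c (X ∪ (C \ insert c Z)))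
    have h6 := cast_rk M (X ∪ (C \ insert c Z))
    rw [← h5, ← h6] at this
    exact_mod_cast this
  omega

lemma vis_mono {Z : Set α} {c : α} (h : X ⊆ Y) (hv : Vis M C Z c X) : Vis M C Z c Y :=
  M.closure_subset_closure (union_subset_union_left _ h) hv

lemma vis_anti {Z Z' : Set α} {c : α} (h : Z ⊆ Z') (hv : Vis M C Z' c X) : Vis M C Z c X :=
  M.closure_subset_closure (union_subset_union_right _
    (sdiff_subset_sdiff_right (insert_subset_insert h))) hv

/-- not contracting one more conflict is an elementary lift -/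
lemma elem_conf [M.Finite] (hC : M.Indep C) (hT : T ⊆ M.E \ C) {Z : Set α} {c : α} (hc : c ∈ C)
    (hcZ : c ∉ Z) : Elem (M ／ (C \ insert c Z)) (M ／ (C \ Z)) T where
  quo := by
    intro X Y hXY hY
    by_cases h1 : Vis M C Z c X
    · rw [rk_vis hC hc hcZ ((hXY.trans hY).trans hT) h1,
        rk_vis hC hc hcZ (hY.trans hT) (vis_mono hXY h1)]
      omega
    · rw [rk_not_vis hC hc hcZ ((hXY.trans hY).trans hT) h1]
      by_cases h2 : Vis M C Z c Y
      · rw [rk_vis hC hc hcZ (hY.trans hT) h2]; omega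
      · rw [rk_not_vis hC hc hcZ (hY.trans hT) h2]
  le := by
    intro X hX
    by_cases h1 : Vis M C Z c X
    · rw [rk_vis hC hc hcZ (hX.trans hT) h1]
    · rw [rk_not_vis hC hc hcZ (hX.trans hT) h1]; omega

lemma inv_iff [M.Finite] (hC : M.Indep C) {Z : Set α} {c : α} (hc : c ∈ C) (hcZ : c ∉ Z)
    (hX : X ⊆ M.E \ C) :
    Inv (M ／ (C \ insert c Z)) (M ／ (C \ Z)) X ↔ ¬ Vis M C Z c X := by
  constructor
  · intro h hv
    have h1 := rk_vis hC hc hcZ hX hv
    have h2 : rk (M ／ (C \ insert c Z)) X = rk (M ／ (C \ Z)) X := h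
    omega
  · exact rk_not_vis hC hc hcZ hX

/-- removing coloops does not change the closure membership -/
lemma mem_closure_of_coloops {A K : Set α} {c : α} (hK : K.Finite) (hA : Disjoint A K)
    (hcK : c ∉ K) (h : c ∈ M.closure (A ∪ K))
    (hcol : ∀ d ∈ K, d ∉ M.closure ((insert c (A ∪ K)) \ {d})) : c ∈ M.closure A := by
  induction K, hK using Set.Finite.induction_on with
  | empty => simpa using h
  | @insert d K hd hKf ih =>
    have hdA : d ∉ A := fun h' => Set.disjoint_left.1 hA h' (Or.inl rfl)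
    have hdc : d ≠ c := fun h' => hcK (Or.inl h'.symm)
    have h1 : c ∈ M.closure (A ∪ K) := by
      by_contra hn
      have h2 : c ∈ M.closure (insert d (A ∪ K)) := by
        rwa [union_insert] at h
      have h3 : d ∈ M.closure (insert c (A ∪ K)) := Matroid.mem_closure_insert hn h2
      refine hcol d (Or.inl rfl) (M.closure_subset_closure ?_ h3)
      rintro e (he | he | he)
      · exact ⟨Or.inl he, fun h' => hdc (by rw [← he]; exact h'.symm)⟩
      · exact ⟨Or.inr (Or.inl he), fun h' => hdA (by rw [← (h' : e = d)]; exact he)⟩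
      · exact ⟨Or.inr (Or.inr (Or.inr he)), fun h' => hd (by rw [← (h' : e = d)]; exact he)⟩
    refine ih (hA.mono_right (subset_insert _ _)) (fun h' => hcK (Or.inr h')) h1 ?_
    intro d' hd' h4
    refine hcol d' (Or.inr hd') (M.closure_subset_closure ?_ h4)
    rintro e ⟨he | he | he, hne⟩
    · exact ⟨Or.inl he, hne⟩
    · exact ⟨Or.inr (Or.inl he), hne⟩
    · exact ⟨Or.inr (Or.inr (Or.inr he)), hne⟩

/-- LEMMA IND: the defects of the conflicts `K` add up on `X` if every `c ∈ K` is visible on some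
`R c ⊆ X` on which the other members of `K` are invisible. -/
lemma rk_ind [M.Finite] (hC : M.Indep C) {B K : Set α} (hKC : K ⊆ C) (hBK : Disjoint B K)
    (hX : X ⊆ M.E \ C) (R : α → Set α) (hR : ∀ c ∈ K, R c ⊆ X)
    (hv : ∀ c ∈ K, Vis M C B c (R c)) (hi : ∀ c ∈ K, ∀ d ∈ K, d ≠ c → ¬ Vis M C B d (R c)) :
    rk (M ／ (C \ (B ∪ K))) X = rk (M ／ (C \ B)) X + K.ncard := by
  have hCf : C.Finite := M.ground_finite.subset hC.subset_ground
  have h1 := rk_conf hC (Z := B) hX
  have h2 := rk_conf hC (Z := B ∪ K) hX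
  have hKf : K.Finite := hCf.subset hKC
  have hsplit : C \ B = (C \ (B ∪ K)) ∪ K := by
    ext e
    have h4 : e ∈ B → e ∉ K := fun h' => Set.disjoint_left.1 hBK h'
    have h5 := @hKC e
    simp only [mem_sdiff, mem_union]
    tauto
  have h3 : (C \ B).ncard = (C \ (B ∪ K)).ncard + K.ncard := by
    rw [hsplit, Set.ncard_union_eq _ (hCf.subset sdiff_subset) hKf]
    rw [Set.disjoint_left]
    exact fun e he hK => he.2 (Or.inr hK)
  have h4 : rk M (X ∪ (C \ B)) = rk M (X ∪ (C \ (B ∪ K))) := by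
    rw [hsplit, ← union_assoc, ← rk_closure (_ ∪ K), ← rk_closure (X ∪ (C \ (B ∪ K)))]
    congr 1
    apply le_antisymm
    · apply Matroid.closure_subset_closure_of_subset_closure
      refine union_subset (M.subset_closure _ (union_subset (hX.trans sdiff_subset)
        (sdiff_subset.trans hC.subset_ground))) ?_
      intro c hc
      have h5 : c ∈ M.closure ((R c ∪ (C \ (B ∪ K))) ∪ (K \ {c})) := by
        refine M.closure_subset_closure ?_ (hv c hc)
        rintro e (he | he)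
        · exact Or.inl (Or.inl he)
        · by_cases heK : e ∈ K
          · exact Or.inr ⟨heK, fun h => he.2 (Or.inl h)⟩
          · exact Or.inl (Or.inr ⟨he.1, fun h => h.elim (fun h => he.2 (Or.inr h)) heK⟩)
      have h6 : c ∈ M.closure (R c ∪ (C \ (B ∪ K))) := by
        refine mem_closure_of_coloops (K := K \ {c}) (hKf.subset sdiff_subset) ?_
          (fun h => h.2 rfl) h5 ?_
        · rw [Set.disjoint_left]
          rintro e (he | he) hK
          · exact (hX (hR c hc he)).2 (hKC hK.1)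
          · exact he.2 (Or.inr hK.1)
        · intro d hd h7
          refine hi c hc d hd.1 hd.2 (M.closure_subset_closure ?_ h7)
          rintro e ⟨he | he | he, hne⟩
          · have : e = c := he
            subst this
            exact Or.inr ⟨hKC hc, fun h => h.elim (fun h => hne h)
              (fun h => Set.disjoint_left.1 hBK h hc)⟩
          · rcases he with he | he
            · exact Or.inl he
            · exact Or.inr ⟨he.1, fun h => h.elim (fun h => hne h) (fun h => he.2 (Or.inl h))⟩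
          · exact Or.inr ⟨hKC he.1, fun h => h.elim (fun h => hne h)
              (fun h => Set.disjoint_left.1 hBK h he.1)⟩
      exact M.closure_subset_closure (union_subset_union_left _ (hR c hc)) h6
    · exact M.closure_subset_closure subset_union_left
  omega

/-- invisible conflicts do not change the ranks -/
lemma rk_inv_le [M.Finite] (hC : M.Indep C) {B K : Set α} (hKC : K ⊆ C) (hBK : Disjoint B K)
    (hX : X ⊆ M.E \ C) (hi : ∀ d ∈ K, ¬ Vis M C B d X) :
    rk (M ／ (C \ (B ∪ K))) X ≤ rk (M ／ (C \ B)) X := by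
  have hKf : K.Finite := (M.ground_finite.subset hC.subset_ground).subset hKC
  induction K, hKf using Set.Finite.induction_on with
  | empty => simp
  | @insert d K hd hKf ih =>
    have h1 := ih (fun e he => hKC (Or.inr he)) (hBK.mono_right (subset_insert _ _))
      (fun e he => hi e (Or.inr he))
    have h2 : B ∪ insert d K = insert d (B ∪ K) := union_insert
    rw [h2]
    have hdB : d ∉ B ∪ K := fun h => h.elim
      (fun h => Set.disjoint_left.1 hBK h (Or.inl rfl)) hd
    rw [rk_not_vis hC (hKC (Or.inl rfl)) hdB hX]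
    · exact h1
    · intro hv
      exact hi d (Or.inl rfl) (vis_anti subset_union_left hv)

/-- the rank formula for one visible conflict -/
lemma rk_one_le [M.Finite] (hC : M.Indep C) {B K : Set α} (hKC : K ⊆ C) (hBK : Disjoint B K)
    (hX : X ⊆ M.E \ C) {c : α} (hc : c ∈ K) (hi : ∀ d ∈ K, d ≠ c → ¬ Vis M C B d X) :
    rk (M ／ (C \ (B ∪ K))) X ≤ rk (M ／ (C \ B)) X + 1 := by
  have hcB : c ∉ B := fun h => Set.disjoint_left.1 hBK h hc
  have h1 : rk (M ／ (C \ (insert c B ∪ (K \ {c})))) X ≤ rk (M ／ (C \ insert c B)) X := by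
    refine rk_inv_le hC (sdiff_subset.trans hKC) ?_ hX ?_
    · rw [Set.disjoint_left]
      rintro e (he | he) hK
      · exact hK.2 he
      · exact Set.disjoint_left.1 hBK he hK.1
    · intro d hd hv
      exact hi d hd.1 hd.2 (vis_anti (subset_insert _ _) hv)
  have h2 : insert c B ∪ (K \ {c}) = B ∪ K := by
    ext e
    simp only [mem_union, mem_insert_iff, mem_sdiff, mem_singleton_iff]
    by_cases h : e = c
    · subst h; simp [hc]
    · simp [h]
  rw [h2] at h1
  have h3 := (elem_conf hC hX (hKC hc) hcB).le X subset_rfl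
  omega

lemma rk_conf_mono [M.Finite] (hC : M.Indep C) {Z Z' : Set α} (hZ : Z ⊆ Z')
    (hX : X ⊆ M.E \ C) : rk (M ／ (C \ Z)) X ≤ rk (M ／ (C \ Z')) X := by
  have h1 := rk_conf hC (Z := Z) hX
  have h2 := rk_conf hC (Z := Z') hX
  have hCf : C.Finite := M.ground_finite.subset hC.subset_ground
  have h3 : C \ Z = (C \ Z') ∪ ((C \ Z) \ (C \ Z')) :=
    (union_sdiff_cancel (sdiff_subset_sdiff_right hZ)).symm
  have h4 : (C \ Z).ncard = (C \ Z').ncard + ((C \ Z) \ (C \ Z')).ncard := by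
    conv_lhs => rw [h3]
    rw [Set.ncard_union_eq disjoint_sdiff_right (hCf.subset sdiff_subset)
      ((hCf.subset sdiff_subset).subset sdiff_subset)]
  have h5 : rk M (X ∪ (C \ Z)) ≤ rk M (X ∪ (C \ Z')) + ((C \ Z) \ (C \ Z')).ncard := by
    conv_lhs => rw [h3, ← union_assoc]
    exact rk_union_le M ((hCf.subset sdiff_subset).subset sdiff_subset)
  omega

end conf

/-! ### simultaneous certificates -/

section sim

variable {M : Matroid α} {C T X : Set α}

lemma rk_biUnion_le (N : Matroid α) [N.Finite] (X : Set α) (K : Finset α) (D : α → Set α)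
    (hD : ∀ c ∈ K, (D c).Finite) :
    rk N (X ∪ ⋃ c ∈ K, D c) ≤ rk N X + ∑ c ∈ K, (D c).ncard := by
  classical
  induction K using Finset.induction_on with
  | empty => simp
  | insert a K ha ih =>
    rw [Finset.set_biUnion_insert, Finset.sum_insert ha, union_comm (D a), ← union_assoc]
    have h1 := ih (fun c hc => hD c (Finset.mem_insert_of_mem hc))
    have h2 := rk_union_le N (X := X ∪ ⋃ c ∈ K, D c) (hD a (Finset.mem_insert_self _ _))
    omega

lemma mem_closure_of_rk {N : Matroid α} [N.Finite] {X : Set α} {f : α} (hf : f ∈ N.E)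
    (h : rk N (insert f X) ≤ rk N X) : f ∈ N.closure X := by
  by_contra hn
  have := N.eRk_insert_eq_add_one (e := f) (X := X) ⟨hf, hn⟩
  rw [← cast_rk, ← cast_rk] at this
  have h2 : rk N (insert f X) = rk N X + 1 := by exact_mod_cast this
  omega

lemma rk_of_mem_closure {N : Matroid α} {X : Set α} {f : α} (hf : f ∈ N.closure X) :
    rk N (insert f X) = rk N X := by
  rw [← rk_closure (insert f X), ← rk_closure X, Matroid.closure_insert_eq_of_mem_closure hf]

/-- the certificates are skew to `O'` -/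
theorem sim_skew [M.Finite] (hC : M.Indep C) {B : Set α} {K : Finset α} (hKC : (K : Set α) ⊆ C)
    (hBK : Disjoint B K) {O' : Set α} {D : α → Set α} (hT : O' ∪ (⋃ c ∈ K, D c) ⊆ M.E \ C)
    (hvis : ∀ c ∈ K, Vis M C B c (O' ∪ D c))
    (hinv : ∀ c ∈ K, ∀ d ∈ K, d ≠ c → ¬ Vis M C B d (O' ∪ D c))
    (hcount : rk (M ／ (C \ B)) O' + ∑ c ∈ K, (D c).ncard ≤
      rk (M ／ (C \ B)) (O' ∪ ⋃ c ∈ K, D c) + K.card) :
    rk (M ／ (C \ B)) O' + ∑ c ∈ K, (D c).ncard ≤
      rk (M ／ (C \ (B ∪ K))) (O' ∪ ⋃ c ∈ K, D c) := by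
  have := rk_ind hC hKC hBK hT (fun c => O' ∪ D c)
    (fun c hc => union_subset_union_right _ (subset_biUnion_of_mem (u := D) hc)) hvis hinv
  rw [this, Set.ncard_coe_finset]
  exact hcount

/-- the element `f` is in the closure of `O' ∪ D` -/
theorem sim_mem [M.Finite] (hC : M.Indep C) {B : Set α} {K : Finset α} (hKC : (K : Set α) ⊆ C)
    (hBK : Disjoint B K) {O' Y : Set α} (hT : O' ∪ Y ⊆ M.E \ C) {c f : α} (hc : c ∈ K)
    (hf : f ∈ Y) (hvis : Vis M C B c (O' ∪ (Y \ {f})))
    (hinv : ∀ d ∈ K, d ≠ c → ¬ Vis M C B d (O' ∪ Y))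
    (h1 : rk (M ／ (C \ B)) (O' ∪ Y) + 2 ≤ rk (M ／ (C \ B)) O' + Y.ncard)
    (h2 : rk (M ／ (C \ B)) O' + (Y \ {f}).ncard ≤ rk (M ／ (C \ B)) (O' ∪ (Y \ {f})) + 1) :
    f ∈ (M ／ (C \ (B ∪ K))).closure (O' ∪ (Y \ {f})) := by
  have hcB : c ∉ B := fun h => Set.disjoint_left.1 hBK h hc
  have hT' : O' ∪ (Y \ {f}) ⊆ M.E \ C :=
    (union_subset_union_right _ sdiff_subset).trans hT
  have h3 := rk_one_le hC hKC hBK hT hc hinv
  have h4 := rk_vis hC (hKC hc) hcB hT' hvis
  have h5 := rk_conf_mono hC (Z := insert c B) (Z' := B ∪ K)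
    (insert_subset (Or.inr hc) subset_union_left) hT'
  have h6 : (Y \ {f}).ncard + 1 = Y.ncard :=
    Set.ncard_sdiff_singleton_add_one hf
      (M.ground_finite.subset ((subset_union_right.trans hT).trans sdiff_subset))
  apply mem_closure_of_rk
  · exact ⟨(hT (Or.inr hf)).1, fun h => (hT (Or.inr hf)).2 h.1⟩
  · have h7 : insert f (O' ∪ (Y \ {f})) = O' ∪ Y := by
      ext e
      simp only [mem_insert_iff, mem_union, mem_sdiff, mem_singleton_iff]
      by_cases h : e = f
      · subst h; simp [hf]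
      · simp [h]
    rw [h7]
    omega

/-- the element `f` of the configuration `Y` of `c` is not in the closure of `O'` and the
certificates, if an end of `Y` is missing in `O'`. -/
theorem sim_not_mem [M.Finite] (hC : M.Indep C) {B : Set α} {K : Finset α}
    (hKC : (K : Set α) ⊆ C) (hBK : Disjoint B K) {O' Y : Set α} {D : α → Set α} {c f : α}
    (hc : c ∈ K) (hD : D c = Y \ {f})
    (hT : O' ∪ (⋃ d ∈ K, D d) ∪ {f} ⊆ M.E \ C)
    (hO : ∀ d ∈ K, ¬ Vis M C B d O')
    (hvis : ∀ d ∈ K, d ≠ c → Vis M C B d (O' ∪ D d)) (hvc : Vis M C B c (O' ∪ Y))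
    (hinv : ∀ c' ∈ K, ∀ d ∈ K, d ≠ c' → ¬ Vis M C B d (O' ∪ D c' ∪ {e | e = f ∧ c' = c}))
    (hcount : rk (M ／ (C \ B)) O' + ∑ d ∈ K, (D d).ncard + 1 ≤
      rk (M ／ (C \ B)) (O' ∪ (⋃ d ∈ K, D d) ∪ {f}) + K.card) :
    f ∉ (M ／ (C \ (B ∪ K))).closure (O' ∪ ⋃ d ∈ K, D d) := by
  have hT1 : O' ∪ (⋃ d ∈ K, D d) ⊆ M.E \ C := subset_union_left.trans hT
  have hT2 : O' ⊆ M.E \ C := subset_union_left.trans hT1
  have h1 := rk_ind hC hKC hBK hT (fun d => O' ∪ D d ∪ {e | e = f ∧ d = c}) ?_ ?_ hinv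
  · rw [Set.ncard_coe_finset] at h1
    have h2 := rk_inv_le hC hKC hBK hT2 hO
    have h3 := rk_biUnion_le (M ／ (C \ (B ∪ K))) O' K D
      (fun d hd => M.ground_finite.subset
        (((subset_biUnion_of_mem (u := D) hd).trans subset_union_right).trans
          (hT1.trans sdiff_subset)))
    intro hmem
    have h4 := rk_of_mem_closure hmem
    have h5 : insert f (O' ∪ ⋃ d ∈ K, D d) = O' ∪ (⋃ d ∈ K, D d) ∪ {f} := by
      ext e; simp only [mem_insert_iff, mem_union, mem_singleton_iff]; tauto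
    rw [h5] at h4
    omega
  · intro d hd
    rintro e ((he | he) | he)
    · exact Or.inl (Or.inl he)
    · exact Or.inl (Or.inr (mem_biUnion hd he))
    · exact Or.inr he.1
  · intro d hd
    by_cases hdc : d = c
    · subst hdc
      refine vis_mono ?_ hvc
      rintro e (he | he)
      · exact Or.inl (Or.inl he)
      · by_cases h : e = f
        · exact Or.inr ⟨h, rfl⟩
        · exact Or.inl (Or.inr (by rw [hD]; exact ⟨he, h⟩))
    · exact vis_mono subset_union_left (hvis d hd hdc)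

/-- THE MINOR. `O` invisible for all members of `K`, the certificates `D` skew to `O`: after
contracting `S ⊆ O` and the certificates the ranks on the rest of `O` are those of
`M ／ (C \ B) ／ S`. -/
theorem sim_minor [M.Finite] (hC : M.Indep C) {B : Set α} {K : Finset α}
    (hKC : (K : Set α) ⊆ C) (hBK : Disjoint B K) {O S X : Set α} {D : α → Set α}
    (hT : O ∪ (⋃ c ∈ K, D c) ⊆ M.E \ C) (hO : ∀ d ∈ K, ¬ Vis M C B d O)
    (hskew : rk (M ／ (C \ B)) O + ∑ c ∈ K, (D c).ncard ≤
      rk (M ／ (C \ (B ∪ K))) (O ∪ ⋃ c ∈ K, D c))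
    (hS : S ⊆ O) (hX : X ⊆ O) (hXS : Disjoint X S) (hXD : Disjoint X (⋃ c ∈ K, D c)) :
    rk (M ／ (C \ (B ∪ K)) ／ (S ∪ ⋃ c ∈ K, D c)) X + rk (M ／ (C \ B)) S =
      rk (M ／ (C \ B)) (X ∪ S) := by
  have hTO : O ⊆ M.E \ C := subset_union_left.trans hT
  have hbase : ∀ Z ⊆ O, rk (M ／ (C \ (B ∪ K))) Z = rk (M ／ (C \ B)) Z := by
    intro Z hZ
    apply le_antisymm
    · exact rk_inv_le hC hKC hBK (hZ.trans hTO) (fun d hd hv => hO d hd (vis_mono hZ hv))
    · exact rk_conf_mono hC subset_union_left (hZ.trans hTO)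
  have hDf : ∀ c ∈ K, (D c).Finite := fun d hd => M.ground_finite.subset
    (((subset_biUnion_of_mem (u := D) hd).trans subset_union_right).trans
      (hT.trans sdiff_subset))
  have hsk : ∀ Z ⊆ O, rk (M ／ (C \ (B ∪ K))) (Z ∪ ⋃ c ∈ K, D c) =
      rk (M ／ (C \ B)) Z + ∑ c ∈ K, (D c).ncard := by
    intro Z hZ
    have h1 := rk_biUnion_le (M ／ (C \ (B ∪ K))) Z K D hDf
    have h2 := rk_submod (M ／ (C \ (B ∪ K))) (Z ∪ ⋃ c ∈ K, D c) O
    have h3 : (Z ∪ ⋃ c ∈ K, D c) ∪ O = O ∪ ⋃ c ∈ K, D c := by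
      ext e
      have := @hZ e
      simp only [mem_union]
      tauto
    have h4 : rk (M ／ (C \ (B ∪ K))) Z ≤
        rk (M ／ (C \ (B ∪ K))) ((Z ∪ ⋃ c ∈ K, D c) ∩ O) :=
      rk_mono _ (fun e he => ⟨Or.inl he, hZ he⟩)
    rw [h3] at h2
    have h5 := hbase Z hZ
    have h6 := hbase O subset_rfl
    omega
  have hSD : S ∪ (⋃ c ∈ K, D c) ⊆ M.E \ C := (union_subset_union_left _ hS).trans hT
  have h1 := rk_contract_set (M := M ／ (C \ (B ∪ K))) (C := S ∪ ⋃ c ∈ K, D c) (X := X) ?_ ?_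
  · have h2 : X ∪ (S ∪ ⋃ c ∈ K, D c) = (X ∪ S) ∪ ⋃ c ∈ K, D c := (union_assoc _ _ _).symm
    rw [h2, hsk S hS, hsk (X ∪ S) (union_subset hX hS)] at h1
    omega
  · exact fun e he => ⟨(hSD he).1, fun h => (hSD he).2 h.1⟩
  · intro e he
    exact ⟨⟨(hTO (hX he)).1, fun h => (hTO (hX he)).2 h.1⟩, fun h => h.elim
      (fun h => Set.disjoint_left.1 hXS he h) (fun h => Set.disjoint_left.1 hXD he h)⟩

end sim

end CW
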